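import Mathlib

set_option autoImplicit false

namespace Pool.Agent.H54.Bry

open Matroid

/-- `N` is isomorphic to `M(K₄)`, the cycle matroid of the complete graph on four vertices:
its ground set consists of six distinct elements `x 0, …, x 5` (the edges
`12, 13, 14, 23, 24, 34`) and its bases are the 3-element subsets different from the four
triangles `{12,13,23}`, `{12,14,24}`, `{13,14,34}`, `{23,24,34}`. -/
def IsMK4 {α : Type*} (N : Matroid α) : Prop :=
  ∃ x : Fin 6 → α, Function.Injective x ∧ N.E = Set.range x ∧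
    ∀ B : Finset (Fin 6), N.IsBase (x '' (B : Set (Fin 6))) ↔
      (B.card = 3 ∧ B ≠ {0, 1, 3} ∧ B ≠ {0, 2, 4} ∧ B ≠ {1, 2, 5} ∧ B ≠ {3, 4, 5})

/-- `M` has a minor isomorphic to `M(K₄)`. -/
def HasMK4Minor {α : Type*} (M : Matroid α) : Prop :=
  ∃ N : Matroid α, N ≤m M ∧ IsMK4 N

/-- `M` is representable (coordinatizable) over the field `F`. -/
def RepresentableOver {α : Type*} (F : Type*) [Field F] (M : Matroid α) : Prop :=
  ∃ (n : ℕ) (v : α → (Fin n → F)), ∀ I : Set α, I ⊆ M.E → (M.Indep I ↔ LinearIndepOn F v I)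

/-- the value `p(M; lam) = ∑_{X ⊆ E} (-1)^|X| lam^(r(E) - r(X))` of the characteristic
polynomial of the finite matroid `M`. -/
noncomputable def charPoly {α : Type*} [Fintype α] (M : Matroid α) (lam : ℤ) : ℤ :=
  open Classical in
  ∑ X ∈ Finset.univ.filter (fun X : Finset α => (X : Set α) ⊆ M.E),
    (-1) ^ X.card * lam ^ ((M.eRk M.E).toNat - (M.eRk X).toNat)

/-- the critical exponent `c(M; q)`: the least positive `k` with `p(M; q^k) > 0`. -/
noncomputable def critExp {α : Type*} [Fintype α] (M : Matroid α) (q : ℕ) : ℕ :=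
  sInf {k : ℕ | 0 < k ∧ 0 < charPoly M ((q : ℤ) ^ k)}

/-- the sequence `1, 2, 6, 42, 1806, …` with `b 0 = 1` and `b (m+1) = b m * (b m + 1)`. -/
def syl : ℕ → ℕ
  | 0 => 1
  | m + 1 => syl m * (syl m + 1)

end Pool.Agent.H54.Bry
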