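import Mathlib
import Pool.Agent.H54.BryDefs

set_option autoImplicit false

namespace Pool.Agent.H54.Bry

open Matroid Finset

section rank

variable {α F V : Type*} [Field F] [AddCommGroup V] [Module F V]

lemma span_basis_eq {M : Matroid α} {v : α → V}
    (hv : ∀ I : Set α, I ⊆ M.E → (M.Indep I ↔ LinearIndepOn F v I)) {I X : Set α}
    (hI : M.IsBasis I X) : Submodule.span F (v '' X) = Submodule.span F (v '' I) := by
  apply le_antisymm
  · rw [Submodule.span_le]
    rintro _ ⟨x, hx, rfl⟩
    by_contra hcon
    have hxI : x ∉ I := fun h => hcon (Submodule.subset_span ⟨x, h, rfl⟩)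
    have hli := ((hv I (hI.indep.subset_ground)).1 hI.indep).insert hcon
    have hXE : X ⊆ M.E := hI.subset_ground
    have hind : M.Indep (insert x I) :=
      (hv _ (Set.insert_subset (hXE hx) hI.indep.subset_ground)).2 hli
    exact hxI (hI.mem_of_insert_indep hx hind)
  · exact Submodule.span_mono (Set.image_mono hI.subset)

lemma eRk_toNat {M : Matroid α} [Finite α] {v : α → V}
    (hv : ∀ I : Set α, I ⊆ M.E → (M.Indep I ↔ LinearIndepOn F v I)) {X : Set α} (hX : X ⊆ M.E) :
    (M.eRk X).toNat = Module.finrank F (Submodule.span F (v '' X)) := by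
  obtain ⟨I, hI⟩ := M.exists_isBasis X
  have hli := (hv I (hI.indep.subset_ground)).1 hI.indep
  rw [span_basis_eq hv hI, ← hI.encard_eq_eRk]
  have h1 : Module.finrank F (Submodule.span F (v '' I)) = (v '' I).ncard := by
    have hfin : Fintype (v '' I) := (Set.toFinite (v '' I)).fintype
    rw [finrank_span_set_eq_card hli.id_image, ← Set.ncard_eq_toFinset_card']
  rw [h1, hli.injOn.ncard_image, Set.ncard_def]

end rank

section count

variable {F V : Type*} [Field F] [Fintype F] [AddCommGroup V] [Module F V] [FiniteDimensional F V]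

/-- linear maps vanishing on `U` correspond to linear maps on the quotient -/
noncomputable def annEquiv {K : Type*} [AddCommGroup K] [Module F K] (U : Submodule F V) :
    {ψ : V →ₗ[F] K // ∀ x ∈ U, ψ x = 0} ≃ ((V ⧸ U) →ₗ[F] K) where
  toFun ψ := U.liftQ ψ.1 (fun x hx => ψ.2 x hx)
  invFun θ := ⟨θ.comp U.mkQ, fun x hx => by
    simp [(Submodule.Quotient.mk_eq_zero U).2 hx]⟩
  left_inv ψ := by
    apply Subtype.ext
    apply LinearMap.ext
    intro x
    rfl
  right_inv θ := by
    apply LinearMap.ext
    intro x
    obtain ⟨y, rfl⟩ := U.mkQ_surjective x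
    rfl

lemma card_ann (k : ℕ) (U : Submodule F V) :
    Nat.card {ψ : V →ₗ[F] (Fin k → F) // ∀ x ∈ U, ψ x = 0} =
      (Fintype.card F ^ k) ^ (Module.finrank F V - Module.finrank F U) := by
  rw [Nat.card_congr (annEquiv U), Module.natCard_eq_pow_finrank (K := F), Module.finrank_linearMap,
    Module.finrank_fin_fun, Nat.card_eq_fintype_card, ← pow_mul]
  congr 1
  have := U.finrank_quotient_add_finrank
  rw [mul_comm]
  congr 1
  omega

end count

/-- **Critical theorem** of Crapo and Rota (the direction used here). -/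
lemma charPoly_pos {α F V : Type*} [Fintype α] [Field F] [Fintype F] [AddCommGroup V] [Module F V]
    [FiniteDimensional F V] (M : Matroid α) (v : α → V)
    (hv : ∀ I : Set α, I ⊆ M.E → (M.Indep I ↔ LinearIndepOn F v I))
    (hspan : Submodule.span F (v '' M.E) = ⊤) (k : ℕ)
    (φ : V →ₗ[F] (Fin k → F)) (hφ : ∀ e ∈ M.E, φ (v e) ≠ 0) :
    0 < charPoly M ((Fintype.card F : ℤ) ^ k) := by
  classical
  have : Finite (V →ₗ[F] (Fin k → F)) := Module.finite_of_finite F
  letI : Fintype (V →ₗ[F] (Fin k → F)) := Fintype.ofFinite _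
  let S : α → Finset (V →ₗ[F] (Fin k → F)) := fun e => Finset.univ.filter (fun ψ => ψ (v e) = 0)
  have hE : M.E.toFinset.powerset = Finset.univ.filter (fun X : Finset α => (X : Set α) ⊆ M.E) := by
    ext X
    simp [Set.subset_toFinset]
  have hinc := Finset.inclusion_exclusion_card_inf_compl M.E.toFinset S
  have hterm : ∀ t ∈ M.E.toFinset.powerset, (-1 : ℤ) ^ t.card * ((t.inf S).card : ℤ) =
      (-1) ^ t.card * ((Fintype.card F : ℤ) ^ k) ^ ((M.eRk M.E).toNat - (M.eRk t).toNat) := by
    intro t ht
    have htE : (t : Set α) ⊆ M.E := by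
      rw [Finset.mem_powerset] at ht
      intro x hx
      have := ht hx
      simpa using this
    congr 1
    rw [eRk_toNat hv htE, eRk_toNat hv (subset_refl _), hspan, finrank_top]
    have h1 := card_ann (F := F) (V := V) k (Submodule.span F (v '' (t : Set α)))
    have h2 : (t.inf S).card = Nat.card {ψ : V →ₗ[F] (Fin k → F) //
        ∀ x ∈ Submodule.span F (v '' (t : Set α)), ψ x = 0} := by
      rw [Nat.card_eq_fintype_card, Fintype.card_subtype]
      congr 1
      ext ψ
      rw [Finset.mem_inf]
      simp only [S, Finset.mem_filter, Finset.mem_univ, true_and]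
      constructor
      · intro h x hx
        have hle : Submodule.span F (v '' (t : Set α)) ≤ LinearMap.ker ψ := by
          rw [Submodule.span_le]
          rintro _ ⟨e, he, rfl⟩
          exact h e he
        exact hle hx
      · intro h e he
        exact h _ (Submodule.subset_span ⟨e, he, rfl⟩)
    rw [h2, h1]
    push_cast
    rfl
  rw [Finset.sum_congr rfl hterm] at hinc
  unfold charPoly
  rw [← hE, ← hinc]
  norm_cast
  rw [Finset.card_pos]
  refine ⟨φ, ?_⟩
  rw [Finset.mem_inf]
  intro e he
  simp only [S, Finset.mem_compl, Finset.mem_filter, Finset.mem_univ, true_and]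
  exact hφ e (by simpa using he)

end Pool.Agent.H54.Bry
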