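import Mathlib
import Pool.Agent.H54.BryDefs

set_option autoImplicit false

namespace Pool.Agent.H54.Bry

open Matroid

variable {α F : Type*} [Field F]

lemma li3_iff (t : Fin 6 → (Fin 3 → F)) (i1 i2 i3 : Fin 6) (h12 : i1 ≠ i2) (h13 : i1 ≠ i3)
    (h23 : i2 ≠ i3) : LinearIndepOn F t ({i1, i2, i3} : Set (Fin 6)) ↔
      Matrix.det (Matrix.of ![t i1, t i2, t i3]) ≠ 0 := by
  have hinj : Function.Injective ![i1, i2, i3] := by
    intro a b hab
    fin_cases a <;> fin_cases b <;> simp_all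
  have h3 : ({i1, i2, i3} : Set (Fin 6)) = Set.range ![i1, i2, i3] := by
    ext a
    simp [eq_comm]
    tauto
  have h4 : t ∘ ![i1, i2, i3] = (Matrix.of ![t i1, t i2, t i3]).row := by
    ext a b
    fin_cases a <;> rfl
  rw [h3, linearIndepOn_range_iff hinj, h4, Matrix.linearIndependent_rows_iff_isUnit,
    Matrix.isUnit_iff_isUnit_det, isUnit_iff_ne_zero]

lemma triples_good (B : Finset (Fin 6)) (h3 : B.card = 3) (h1 : B ≠ {0, 1, 3})
    (h2 : B ≠ {0, 2, 4}) (h4 : B ≠ {1, 2, 5}) (h5 : B ≠ {3, 4, 5}) :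
    B ∈ ([{0,1,2}, {0,1,4}, {0,1,5}, {0,2,3}, {0,2,5}, {0,3,4}, {0,3,5}, {0,4,5},
      {1,2,3}, {1,2,4}, {1,3,4}, {1,3,5}, {1,4,5}, {2,3,4}, {2,3,5}, {2,4,5}] :
      List (Finset (Fin 6))) := by
  revert B
  decide

/-- six points of a plane forming a complete quadrilateral -/
def quadT (X X' Y Y' l1 l2 l3 l4 : F) : Fin 6 → (Fin 3 → F) :=
  ![![1, 0, 0], ![l1 * X, l1 * Y, l1], ![l2 * X, l2 * Y', l2], ![l3 * X', l3 * Y, l3],
    ![l4 * X', l4 * Y', l4], ![0, 1, 0]]

lemma quad_good {X X' Y Y' l1 l2 l3 l4 : F} (hX : X ≠ X') (hY : Y ≠ Y') (h1 : l1 ≠ 0)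
    (h2 : l2 ≠ 0) (h3 : l3 ≠ 0) (h4 : l4 ≠ 0) (B : Finset (Fin 6)) (hB3 : B.card = 3)
    (hB1 : B ≠ {0, 1, 3}) (hB2 : B ≠ {0, 2, 4}) (hB4 : B ≠ {1, 2, 5}) (hB5 : B ≠ {3, 4, 5}) :
    LinearIndepOn F (quadT X X' Y Y' l1 l2 l3 l4) (B : Set (Fin 6)) := by
  have hX' : X - X' ≠ 0 := sub_ne_zero.2 hX
  have hY' : Y - Y' ≠ 0 := sub_ne_zero.2 hY
  have key : ∀ (i1 i2 i3 : Fin 6) (d : F), i1 ≠ i2 → i1 ≠ i3 → i2 ≠ i3 → d ≠ 0 →
      Matrix.det (Matrix.of ![quadT X X' Y Y' l1 l2 l3 l4 i1, quadT X X' Y Y' l1 l2 l3 l4 i2,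
        quadT X X' Y Y' l1 l2 l3 l4 i3]) = d →
      LinearIndepOn F (quadT X X' Y Y' l1 l2 l3 l4)
        (({i1, i2, i3} : Finset (Fin 6)) : Set (Fin 6)) := by
    intro i1 i2 i3 d h12 h13 h23 hd hdet
    have : (({i1, i2, i3} : Finset (Fin 6)) : Set (Fin 6)) = {i1, i2, i3} := by simp
    rw [this, li3_iff _ _ _ _ h12 h13 h23, hdet]
    exact hd
  have hmem := triples_good B hB3 hB1 hB2 hB4 hB5
  simp only [List.mem_cons, List.not_mem_nil, or_false] at hmem
  rcases hmem with rfl | rfl | rfl | rfl | rfl | rfl | rfl | rfl | rfl | rfl | rfl | rfl | rfl |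
    rfl | rfl | rfl
  · exact key 0 1 2 (l1 * l2 * (Y - Y')) (by decide) (by decide) (by decide)
      (mul_ne_zero (mul_ne_zero h1 h2) hY') (by simp [Matrix.det_fin_three, quadT]; ring)
  · exact key 0 1 4 (l1 * l4 * (Y - Y')) (by decide) (by decide) (by decide)
      (mul_ne_zero (mul_ne_zero h1 h4) hY') (by simp [Matrix.det_fin_three, quadT]; ring)
  · exact key 0 1 5 (-l1) (by decide) (by decide) (by decide)
      (neg_ne_zero.2 h1) (by simp [Matrix.det_fin_three, quadT])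
  · exact key 0 2 3 (-(l2 * l3 * (Y - Y'))) (by decide) (by decide) (by decide)
      (neg_ne_zero.2 (mul_ne_zero (mul_ne_zero h2 h3) hY'))
      (by simp [Matrix.det_fin_three, quadT]; ring)
  · exact key 0 2 5 (-l2) (by decide) (by decide) (by decide)
      (neg_ne_zero.2 h2) (by simp [Matrix.det_fin_three, quadT])
  · exact key 0 3 4 (l3 * l4 * (Y - Y')) (by decide) (by decide) (by decide)
      (mul_ne_zero (mul_ne_zero h3 h4) hY') (by simp [Matrix.det_fin_three, quadT]; ring)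
  · exact key 0 3 5 (-l3) (by decide) (by decide) (by decide)
      (neg_ne_zero.2 h3) (by simp [Matrix.det_fin_three, quadT])
  · exact key 0 4 5 (-l4) (by decide) (by decide) (by decide)
      (neg_ne_zero.2 h4) (by simp [Matrix.det_fin_three, quadT])
  · exact key 1 2 3 (-(l1 * l2 * l3 * ((X - X') * (Y - Y')))) (by decide) (by decide) (by decide)
      (neg_ne_zero.2 (mul_ne_zero (mul_ne_zero (mul_ne_zero h1 h2) h3) (mul_ne_zero hX' hY')))
      (by simp [Matrix.det_fin_three, quadT]; ring)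
  · exact key 1 2 4 (-(l1 * l2 * l4 * ((X - X') * (Y - Y')))) (by decide) (by decide) (by decide)
      (neg_ne_zero.2 (mul_ne_zero (mul_ne_zero (mul_ne_zero h1 h2) h4) (mul_ne_zero hX' hY')))
      (by simp [Matrix.det_fin_three, quadT]; ring)
  · exact key 1 3 4 (l1 * l3 * l4 * ((X - X') * (Y - Y'))) (by decide) (by decide) (by decide)
      (mul_ne_zero (mul_ne_zero (mul_ne_zero h1 h3) h4) (mul_ne_zero hX' hY'))
      (by simp [Matrix.det_fin_three, quadT]; ring)
  · exact key 1 3 5 (-(l1 * l3 * (X - X'))) (by decide) (by decide) (by decide)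
      (neg_ne_zero.2 (mul_ne_zero (mul_ne_zero h1 h3) hX'))
      (by simp [Matrix.det_fin_three, quadT]; ring)
  · exact key 1 4 5 (-(l1 * l4 * (X - X'))) (by decide) (by decide) (by decide)
      (neg_ne_zero.2 (mul_ne_zero (mul_ne_zero h1 h4) hX'))
      (by simp [Matrix.det_fin_three, quadT]; ring)
  · exact key 2 3 4 (l2 * l3 * l4 * ((X - X') * (Y - Y'))) (by decide) (by decide) (by decide)
      (mul_ne_zero (mul_ne_zero (mul_ne_zero h2 h3) h4) (mul_ne_zero hX' hY'))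
      (by simp [Matrix.det_fin_three, quadT]; ring)
  · exact key 2 3 5 (-(l2 * l3 * (X - X'))) (by decide) (by decide) (by decide)
      (neg_ne_zero.2 (mul_ne_zero (mul_ne_zero h2 h3) hX'))
      (by simp [Matrix.det_fin_three, quadT]; ring)
  · exact key 2 4 5 (-(l2 * l4 * (X - X'))) (by decide) (by decide) (by decide)
      (neg_ne_zero.2 (mul_ne_zero (mul_ne_zero h2 h4) hX'))
      (by simp [Matrix.det_fin_three, quadT]; ring)

lemma quad_bad (X X' Y Y' l1 l2 l3 l4 : F) :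
    ¬ LinearIndepOn F (quadT X X' Y Y' l1 l2 l3 l4) ({0, 1, 3} : Set (Fin 6)) ∧
    ¬ LinearIndepOn F (quadT X X' Y Y' l1 l2 l3 l4) ({0, 2, 4} : Set (Fin 6)) ∧
    ¬ LinearIndepOn F (quadT X X' Y Y' l1 l2 l3 l4) ({1, 2, 5} : Set (Fin 6)) ∧
    ¬ LinearIndepOn F (quadT X X' Y Y' l1 l2 l3 l4) ({3, 4, 5} : Set (Fin 6)) := by
  refine ⟨?_, ?_, ?_, ?_⟩
  · rw [li3_iff _ _ _ _ (by decide) (by decide) (by decide), not_not]
    simp [Matrix.det_fin_three, quadT]; ring
  · rw [li3_iff _ _ _ _ (by decide) (by decide) (by decide), not_not]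
    simp [Matrix.det_fin_three, quadT]; ring
  · rw [li3_iff _ _ _ _ (by decide) (by decide) (by decide), not_not]
    simp [Matrix.det_fin_three, quadT]; ring
  · rw [li3_iff _ _ _ _ (by decide) (by decide) (by decide), not_not]
    simp [Matrix.det_fin_three, quadT]; ring

lemma isMK4_of {N : Matroid α} {x : Fin 6 → α} (hx : Function.Injective x)
    (hE : N.E = Set.range x) {X X' Y Y' l1 l2 l3 l4 : F} (hX : X ≠ X') (hY : Y ≠ Y')
    (h1 : l1 ≠ 0) (h2 : l2 ≠ 0) (h3 : l3 ≠ 0) (h4 : l4 ≠ 0)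
    (hind : ∀ B : Finset (Fin 6), N.Indep (x '' (B : Set (Fin 6))) ↔
      LinearIndepOn F (quadT X X' Y Y' l1 l2 l3 l4) (B : Set (Fin 6))) : IsMK4 N := by
  classical
  have hcard : ∀ B : Finset (Fin 6), N.Indep (x '' (B : Set (Fin 6))) → B.card ≤ 3 := by
    intro B hB
    have hli : LinearIndependent F
      (fun k : (B : Set (Fin 6)) => quadT X X' Y Y' l1 l2 l3 l4 k) := (hind B).1 hB
    have := hli.fintype_card_le_finrank
    simpa using this
  have hpre : ∀ S : Set α, S ⊆ N.E → ∃ B : Finset (Fin 6), S = x '' (B : Set (Fin 6)) := by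
    intro S hS
    refine ⟨Finset.univ.filter (fun k => x k ∈ S), ?_⟩
    ext y
    constructor
    · intro hy
      obtain ⟨k, rfl⟩ := (hE ▸ hS) hy
      exact ⟨k, by simpa using hy, rfl⟩
    · rintro ⟨k, hk, rfl⟩
      simpa using hk
  have hbase : ∀ B : Finset (Fin 6), N.Indep (x '' (B : Set (Fin 6))) → B.card = 3 →
      N.IsBase (x '' (B : Set (Fin 6))) := by
    intro B hB hB3
    obtain ⟨B', hB', hsub⟩ := hB.exists_isBase_superset
    obtain ⟨C, rfl⟩ := hpre B' hB'.subset_ground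
    have hBC : B ⊆ C := by
      intro k hk
      have : x k ∈ x '' (C : Set (Fin 6)) := hsub ⟨k, hk, rfl⟩
      obtain ⟨k', hk', he⟩ := this
      rw [← hx he]
      exact hk'
    have hC := hcard C hB'.indep
    have : B = C := Finset.eq_of_subset_of_card_le hBC (by omega)
    rw [this]
    exact hB'
  have hgood := fun B => quad_good (F := F) hX hY h1 h2 h3 h4 B
  refine ⟨x, hx, hE, fun B => ⟨fun hB => ?_, ?_⟩⟩
  · have hB0 : N.IsBase (x '' (({0, 1, 5} : Finset (Fin 6)) : Set (Fin 6))) := by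
      apply hbase _ _ (by decide)
      rw [hind]
      exact hgood _ (by decide) (by decide) (by decide) (by decide) (by decide)
    have hcB : B.card = 3 := by
      have h := hB.ncard_eq_ncard_of_isBase hB0
      rw [Set.ncard_image_of_injective _ hx, Set.ncard_image_of_injective _ hx,
        Set.ncard_coe_finset, Set.ncard_coe_finset] at h
      rw [h]
      decide
    have hli := (hind B).1 hB.indep
    obtain ⟨q1, q2, q3, q4⟩ := quad_bad X X' Y Y' l1 l2 l3 l4
    refine ⟨hcB, ?_, ?_, ?_, ?_⟩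
    · rintro rfl
      apply q1
      simpa using hli
    · rintro rfl
      apply q2
      simpa using hli
    · rintro rfl
      apply q3
      simpa using hli
    · rintro rfl
      apply q4
      simpa using hli
  · rintro ⟨g0, g1, g2, g3, g4⟩
    exact hbase B ((hind B).2 (hgood B g0 g1 g2 g3 g4)) g0

end Pool.Agent.H54.Bry
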