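import Mathlib

set_option autoImplicit false

namespace Pool.Agent.H54.Bry

open Matroid Finset

variable {α F : Type*} [Field F]

lemma exists_std {M : Matroid α} [Finite α] {n : ℕ} {v : α → (Fin n → F)}
    (hv : ∀ I : Set α, I ⊆ M.E → (M.Indep I ↔ LinearIndepOn F v I))
    (hspan : ∀ {I X : Set α}, M.IsBasis I X →
      Submodule.span F (v '' X) = Submodule.span F (v '' I)) :
    ∃ (r : ℕ) (v' : α → (Fin r → F)) (b : Fin r → α), (∀ j, b j ∈ M.E) ∧
      (∀ j, v' (b j) = Pi.single j 1) ∧
      (∀ I : Set α, I ⊆ M.E → (M.Indep I ↔ LinearIndepOn F v' I)) ∧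
      Submodule.span F (v' '' M.E) = ⊤ ∧ (M.eRk M.E).toNat = r := by
  obtain ⟨B, hB⟩ := M.exists_isBase
  have hBfin : B.Finite := Set.toFinite B
  set r := B.ncard with hr
  obtain ⟨f⟩ : Nonempty (Fin r ≃ B) := by
    have h0 : Nat.card B = r := Nat.card_coe_set_eq B
    have : Finite B := hBfin
    exact ⟨(Finite.equivFinOfCardEq h0).symm⟩
  let b : Fin r → α := fun j => (f j : α)
  have hbE : ∀ j, b j ∈ M.E := fun j => hB.subset_ground (f j).2
  have hrange : Set.range b = B := by
    ext x
    constructor
    · rintro ⟨j, rfl⟩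
      exact (f j).2
    · intro hx
      exact ⟨f.symm ⟨x, hx⟩, by simp [b]⟩
  have hli : LinearIndependent F (v ∘ b) := by
    have h1 : LinearIndependent F (fun x : B => v x) := (hv B hB.subset_ground).1 hB.indep
    exact h1.comp f f.injective
  let g : (Fin r → F) →ₗ[F] (Fin n → F) := Fintype.linearCombination F (v ∘ b)
  have hg : LinearMap.ker g = ⊥ := by
    rw [LinearMap.ker_eq_bot]
    exact linearIndependent_iff_injective_fintypeLinearCombination.1 hli
  obtain ⟨L, hL⟩ := g.exists_leftInverse_of_injective hg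
  have hLg : ∀ x, L (g x) = x := fun x => by
    have := congrArg (fun h => h x) hL
    simpa using this
  have hW : Submodule.span F (v '' M.E) = LinearMap.range g := by
    rw [hspan hB.isBasis_ground, ← hrange, ← Set.range_comp]
    exact (Fintype.range_linearCombination F _).symm
  have hgs : ∀ j, g (Pi.single j 1) = v (b j) := by
    intro j
    simp [g, Fintype.linearCombination_apply_single]
  refine ⟨r, L ∘ v, b, hbE, ?_, ?_, ?_, ?_⟩
  · intro j
    rw [Function.comp_apply, ← hgs, hLg]
  · intro I hI
    rw [hv I hI]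
    symm
    apply LinearMap.linearIndepOn_iff_of_injOn
    have hle : Submodule.span F (v '' I) ≤ LinearMap.range g := by
      rw [← hW]
      exact Submodule.span_mono (Set.image_mono hI)
    intro x hx y hy hxy
    obtain ⟨x', rfl⟩ := hle hx
    obtain ⟨y', rfl⟩ := hle hy
    rw [hLg, hLg] at hxy
    rw [hxy]
  · rw [Set.image_comp, Submodule.span_image, hW, ← LinearMap.range_comp, hL, LinearMap.range_id]
  · rw [← hB.encard_eq_eRank.trans M.eRk_ground.symm, hr]
    rfl

end Pool.Agent.H54.Bry
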