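import Mathlib
import Pool.Agent.H54.BryDefs

set_option autoImplicit false

namespace Pool.Agent.H54.Bry

open Finset

set_option linter.unusedSectionVars false

variable {ι F : Type*} [DecidableEq ι] [DecidableEq F]

/-- no combinatorial rectangle in the projection to coordinates `a`, `b`. -/
def RectFree (A : Finset (ι → F)) (a b : ι) : Prop :=
  ∀ w1 ∈ A, ∀ w2 ∈ A, ∀ w3 ∈ A, ∀ w4 ∈ A,
    w1 a = w2 a → w3 a = w4 a → w1 b = w3 b → w2 b = w4 b → w1 a ≠ w3 a → w1 b = w2 b

/-- number of values in coordinate `j` -/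
def nv (A : Finset (ι → F)) (j : ι) : ℕ := (A.image (fun w => w j)).card

omit [DecidableEq ι] in
lemma sum_offDiag (A : Finset (ι → F)) (j0 j : ι) (h : RectFree A j0 j) :
    ∑ x ∈ A.image (fun w => w j0),
      nv (A.filter (fun w => w j0 = x)) j * (nv (A.filter (fun w => w j0 = x)) j - 1)
      ≤ nv A j * (nv A j - 1) := by
  have hoff : ∀ s : Finset F, s.offDiag.card = s.card * (s.card - 1) := by
    intro s
    rw [Finset.offDiag_card, Nat.mul_sub, mul_one]
  have h1 : ∀ x ∈ A.image (fun w => w j0),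
      nv (A.filter (fun w => w j0 = x)) j * (nv (A.filter (fun w => w j0 = x)) j - 1) =
      ((A.filter (fun w => w j0 = x)).image (fun w => w j)).offDiag.card := by
    intro x _
    rw [hoff]
    rfl
  rw [Finset.sum_congr rfl h1, ← Finset.card_biUnion]
  · have : nv A j * (nv A j - 1) = ((A.image (fun w => w j)).offDiag).card := by
      rw [hoff]; rfl
    rw [this]
    apply Finset.card_le_card
    intro p hp
    simp only [mem_biUnion, mem_offDiag, mem_image, mem_filter] at hp ⊢
    obtain ⟨x, _, ⟨w, ⟨hw, _⟩, hw1⟩, ⟨w', ⟨hw', _⟩, hw1'⟩, hne⟩ := hp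
    exact ⟨⟨w, hw, hw1⟩, ⟨w', hw', hw1'⟩, hne⟩
  · intro x hx y hy hxy
    rw [Function.onFun, Finset.disjoint_left]
    intro p hp hp'
    simp only [mem_offDiag, mem_image, mem_filter] at hp hp'
    obtain ⟨⟨w1, ⟨hw1, hx1⟩, e1⟩, ⟨w2, ⟨hw2, hx2⟩, e2⟩, hne⟩ := hp
    obtain ⟨⟨w3, ⟨hw3, hy3⟩, e3⟩, ⟨w4, ⟨hw4, hy4⟩, e4⟩, _⟩ := hp'
    apply hne
    rw [← e1, ← e2]
    exact h w1 hw1 w2 hw2 w3 hw3 w4 hw4 (by rw [hx1, hx2]) (by rw [hy3, hy4]) (by rw [e1, e3])
      (by rw [e2, e4]) (by rw [hx1, hy3]; exact hxy)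

/-- the sequence `a_0 = 1`, `a_{m+1} = a_m (a_m t + 1)/2`. -/
def aSeq (t : ℕ) : ℕ → ℕ
  | 0 => 1
  | m + 1 => aSeq t m * (aSeq t m * t + 1) / 2

lemma aSeq_pos (t : ℕ) (ht : Odd t) (m : ℕ) : 0 < aSeq t m := by
  induction m with
  | zero => simp [aSeq]
  | succ m ih =>
    simp only [aSeq]
    obtain ⟨k, hk⟩ := ht
    have : 2 ≤ aSeq t m * (aSeq t m * t + 1) := by
      have h1 : 1 ≤ aSeq t m * t := Nat.mul_pos ih (by omega)
      nlinarith
    omega

lemma two_mul_aSeq_succ (t : ℕ) (ht : Odd t) (m : ℕ) :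
    2 * aSeq t (m + 1) = aSeq t m * (aSeq t m * t + 1) := by
  simp only [aSeq]
  apply Nat.mul_div_cancel'
  have : Even (aSeq t m * (aSeq t m * t + 1)) := by
    rcases Nat.even_or_odd (aSeq t m) with h | h
    · exact h.mul_right _
    · exact Even.mul_left ((h.mul ht).add_one) _
  exact this.two_dvd

lemma aSeq_mono_succ (t : ℕ) (ht : Odd t) (m : ℕ) : aSeq t m ≤ aSeq t (m + 1) := by
  have h1 := two_mul_aSeq_succ t ht m
  have h2 := aSeq_pos t ht m
  obtain ⟨k, hk⟩ := ht
  have h3 : 1 ≤ aSeq t m * t := Nat.mul_pos h2 (by omega)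
  nlinarith

lemma aSeq_mono (t : ℕ) (ht : Odd t) : Monotone (aSeq t) :=
  monotone_nat_of_le_succ (aSeq_mono_succ t ht)

lemma tangent (s n : ℕ) : 2 * s * n ≤ s * (s + 1) + n * (n - 1) := by
  rcases Nat.eq_zero_or_pos n with rfl | hn
  · simp
  · obtain ⟨k, rfl⟩ : ∃ k, n = k + 1 := ⟨n - 1, by omega⟩
    simp only [Nat.add_sub_cancel]
    -- (n-s)(n-s-1) ≥ 0
    zify
    rcases le_or_gt (k : ℤ) s with h | h
    · nlinarith [sq_nonneg ((k : ℤ) - s), mul_nonneg (sub_nonneg.2 h) (by linarith : (0:ℤ) ≤ s - k)]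
    · nlinarith [sq_nonneg ((k : ℤ) - s)]

lemma nv_filter_le (A : Finset (ι → F)) (j0 j : ι) (x : F) :
    nv (A.filter (fun w => w j0 = x)) j ≤ nv A j := by
  unfold nv
  apply Finset.card_le_card
  exact Finset.image_subset_image (Finset.filter_subset _ _)

/-- the step: split according to coordinate `j0`. -/
lemma rect_step (t c : ℕ) (j0 : ι) (J : Finset ι) (hj0 : j0 ∉ J) (A : Finset (ι → F))
    (hfree : ∀ a ∈ insert j0 J, ∀ b ∈ insert j0 J, a ≠ b → RectFree A a b)
    (hc : ∀ x ∈ A.image (fun w => w j0),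
      2 * t * (A.filter (fun w => w j0 = x)).card ≤ 2 * t * c +
        ∑ j ∈ J, nv (A.filter (fun w => w j0 = x)) j *
          (nv (A.filter (fun w => w j0 = x)) j - 1)) :
    2 * t * A.card ≤ 2 * t * c * nv A j0 + ∑ j ∈ J, nv A j * (nv A j - 1) := by
  have hcard : A.card = ∑ x ∈ A.image (fun w => w j0), (A.filter (fun w => w j0 = x)).card :=
    Finset.card_eq_sum_card_image (fun w => w j0) A
  rw [hcard, Finset.mul_sum]
  calc ∑ x ∈ A.image (fun w => w j0), 2 * t * (A.filter (fun w => w j0 = x)).card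
      ≤ ∑ x ∈ A.image (fun w => w j0), (2 * t * c +
        ∑ j ∈ J, nv (A.filter (fun w => w j0 = x)) j *
          (nv (A.filter (fun w => w j0 = x)) j - 1)) := Finset.sum_le_sum hc
    _ = 2 * t * c * nv A j0 + ∑ j ∈ J, ∑ x ∈ A.image (fun w => w j0),
          nv (A.filter (fun w => w j0 = x)) j *
          (nv (A.filter (fun w => w j0 = x)) j - 1) := by
        rw [Finset.sum_add_distrib, Finset.sum_const, Finset.sum_comm]
        simp only [nv, smul_eq_mul]
        ring
    _ ≤ _ := by
        apply Nat.add_le_add_left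
        apply Finset.sum_le_sum
        intro j hj
        apply sum_offDiag
        apply hfree j0 (mem_insert_self _ _) j (mem_insert_of_mem hj)
        rintro rfl
        exact hj0 hj

lemma RectFree.mono {A B : Finset (ι → F)} (h : B ⊆ A) {a b : ι} (hA : RectFree A a b) :
    RectFree B a b :=
  fun w1 h1 w2 h2 w3 h3 w4 h4 => hA w1 (h h1) w2 (h h2) w3 (h h3) w4 (h h4)

/-- main counting lemma -/
lemma rect_bound (t : ℕ) (ht : Odd t) (J : Finset ι) : ∀ (A : Finset (ι → F)),
    (∀ w ∈ A, ∀ w' ∈ A, (∀ j ∈ J, w j = w' j) → w = w') →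
    (∀ a ∈ J, ∀ b ∈ J, a ≠ b → RectFree A a b) →
    2 * t * A.card ≤ 2 * t * aSeq t J.card + ∑ j ∈ J, nv A j * (nv A j - 1) := by
  induction J using Finset.induction_on with
  | empty =>
    intro A hinj _
    have : A.card ≤ 1 := Finset.card_le_one.2 (fun w hw w' hw' => hinj w hw w' hw' (by simp))
    simp only [card_empty, aSeq, sum_empty, add_zero]
    exact Nat.mul_le_mul_left _ this
  | insert j0 J hj0 ih =>
    intro A hinj hfree
    have hstep := rect_step t (aSeq t J.card) j0 J hj0 A hfree (by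
      intro x _
      apply ih
      · intro w hw w' hw' hww
        simp only [mem_filter] at hw hw'
        apply hinj w hw.1 w' hw'.1
        intro j hj
        rcases mem_insert.1 hj with rfl | hj
        · rw [hw.2, hw'.2]
        · exact hww j hj
      · intro a ha b hb hab
        exact (hfree a (mem_insert_of_mem ha) b (mem_insert_of_mem hb) hab).mono
          (Finset.filter_subset _ _))
    rw [Finset.card_insert_of_notMem hj0, Finset.sum_insert hj0]
    have h1 := tangent (aSeq t J.card * t) (nv A j0)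
    have h2 := two_mul_aSeq_succ t ht J.card
    have h3 : aSeq t J.card * t * (aSeq t J.card * t + 1) = 2 * t * aSeq t (J.card + 1) := by
      calc aSeq t J.card * t * (aSeq t J.card * t + 1)
          = t * (aSeq t J.card * (aSeq t J.card * t + 1)) := by ring
        _ = t * (2 * aSeq t (J.card + 1)) := by rw [h2]
        _ = _ := by ring
    rw [h3] at h1
    have h4 : 2 * t * aSeq t J.card * nv A j0 = 2 * (aSeq t J.card * t) * nv A j0 := by ring
    omega

/-- consequence used for the critical exponent, general odd `t`. -/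
lemma rect_bound' (t : ℕ) (ht : Odd t) (j0 : ι) (J : Finset ι) (hj0 : j0 ∉ J)
    (A : Finset (ι → F)) (q : ℕ) (hq : ∀ j ∈ insert j0 J, nv A j ≤ q)
    (hinj : ∀ w ∈ A, ∀ w' ∈ A, (∀ j ∈ insert j0 J, w j = w' j) → w = w')
    (hfree : ∀ a ∈ insert j0 J, ∀ b ∈ insert j0 J, a ≠ b → RectFree A a b) :
    2 * t * A.card ≤ 2 * t * aSeq t J.card * q + J.card * (q * (q - 1)) := by
  have hstep := rect_step t (aSeq t J.card) j0 J hj0 A hfree (by
      intro x _
      apply rect_bound t ht
      · intro w hw w' hw' hww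
        simp only [mem_filter] at hw hw'
        apply hinj w hw.1 w' hw'.1
        intro j hj
        rcases mem_insert.1 hj with rfl | hj
        · rw [hw.2, hw'.2]
        · exact hww j hj
      · intro a ha b hb hab
        exact (hfree a (mem_insert_of_mem ha) b (mem_insert_of_mem hb) hab).mono
          (Finset.filter_subset _ _))
  have h1 : 2 * t * aSeq t J.card * nv A j0 ≤ 2 * t * aSeq t J.card * q :=
    Nat.mul_le_mul_left _ (hq j0 (mem_insert_self _ _))
  have h2 : ∑ j ∈ J, nv A j * (nv A j - 1) ≤ J.card * (q * (q - 1)) := by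
    rw [← smul_eq_mul, ← Finset.sum_const]
    apply Finset.sum_le_sum
    intro j hj
    have := hq j (mem_insert_of_mem hj)
    exact Nat.mul_le_mul this (Nat.sub_le_sub_right this 1)
  omega

/-- improved version with two special coordinates. -/
lemma rect_bound_two (j0 j1 : ι) (J : Finset ι) (hj01 : j0 ≠ j1) (hj0 : j0 ∉ J) (hj1 : j1 ∉ J)
    (A : Finset (ι → F)) (q : ℕ) (hq : ∀ j ∈ insert j0 (insert j1 J), nv A j ≤ q)
    (hinj : ∀ w ∈ A, ∀ w' ∈ A, (∀ j ∈ insert j0 (insert j1 J), w j = w' j) → w = w')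
    (hfree : ∀ a ∈ insert j0 (insert j1 J), ∀ b ∈ insert j0 (insert j1 J), a ≠ b →
      RectFree A a b) :
    4 * A.card ≤ 6 * q + (2 * J.card + 1) * (q * (q - 1)) := by
  have ha1 : ∀ m, aSeq 1 m = 1 := by
    intro m
    induction m with
    | zero => rfl
    | succ m ih => simp [aSeq, ih]
  have hmem : ∀ a ∈ insert j1 J, a ∈ insert j0 (insert j1 J) := fun a ha => mem_insert_of_mem ha
  have hx : ∀ x ∈ A.image (fun w => w j0), 2 * (A.filter (fun w => w j0 = x)).card ≤
      2 * nv (A.filter (fun w => w j0 = x)) j1 +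
        ∑ j ∈ J, nv (A.filter (fun w => w j0 = x)) j *
          (nv (A.filter (fun w => w j0 = x)) j - 1) := by
    intro x _
    have h := rect_step 1 1 j1 J hj1 (A.filter (fun w => w j0 = x))
      (fun a ha b hb hab => (hfree a (hmem a ha) b (hmem b hb) hab).mono
          (Finset.filter_subset _ _)) (by
        intro y _
        have h := rect_bound 1 odd_one J
          ((A.filter (fun w => w j0 = x)).filter (fun w => w j1 = y)) (by
            intro w hw w' hw' hww
            simp only [mem_filter] at hw hw'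
            apply hinj w hw.1.1 w' hw'.1.1
            intro j hj
            rcases mem_insert.1 hj with rfl | hj
            · rw [hw.1.2, hw'.1.2]
            · rcases mem_insert.1 hj with rfl | hj
              · rw [hw.2, hw'.2]
              · exact hww j hj)
          (fun a ha b hb hab => (hfree a (hmem a (mem_insert_of_mem ha)) b
            (hmem b (mem_insert_of_mem hb)) hab).mono
            ((Finset.filter_subset _ _).trans (Finset.filter_subset _ _)))
        rw [ha1] at h
        exact h)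
    simpa using h
  have hcard : A.card = ∑ x ∈ A.image (fun w => w j0), (A.filter (fun w => w j0 = x)).card :=
    Finset.card_eq_sum_card_image (fun w => w j0) A
  have h1 : 2 * A.card ≤ 2 * ∑ x ∈ A.image (fun w => w j0), nv (A.filter (fun w => w j0 = x)) j1 +
      ∑ j ∈ J, ∑ x ∈ A.image (fun w => w j0), nv (A.filter (fun w => w j0 = x)) j *
          (nv (A.filter (fun w => w j0 = x)) j - 1) := by
    rw [hcard, Finset.mul_sum, Finset.mul_sum, Finset.sum_comm, ← Finset.sum_add_distrib]
    exact Finset.sum_le_sum hx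
  have hle : ∀ j ∈ insert j0 (insert j1 J), nv A j * (nv A j - 1) ≤ q * (q - 1) := by
    intro j hj
    have := hq j hj
    exact Nat.mul_le_mul this (Nat.sub_le_sub_right this 1)
  have h2 : ∑ j ∈ J, ∑ x ∈ A.image (fun w => w j0), nv (A.filter (fun w => w j0 = x)) j *
          (nv (A.filter (fun w => w j0 = x)) j - 1) ≤ J.card * (q * (q - 1)) := by
    rw [← smul_eq_mul, ← Finset.sum_const]
    apply Finset.sum_le_sum
    intro j hj
    refine le_trans (sum_offDiag A j0 j (hfree j0 (mem_insert_self _ _) j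
      (hmem j (mem_insert_of_mem hj)) ?_)) (hle j (hmem j (mem_insert_of_mem hj)))
    rintro rfl
    exact hj0 hj
  have h3 : 4 * ∑ x ∈ A.image (fun w => w j0), nv (A.filter (fun w => w j0 = x)) j1 ≤
      6 * q + q * (q - 1) := by
    calc 4 * ∑ x ∈ A.image (fun w => w j0), nv (A.filter (fun w => w j0 = x)) j1
        ≤ ∑ x ∈ A.image (fun w => w j0), (6 + nv (A.filter (fun w => w j0 = x)) j1 *
          (nv (A.filter (fun w => w j0 = x)) j1 - 1)) := by
          rw [Finset.mul_sum]
          apply Finset.sum_le_sum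
          intro x _
          have := tangent 2 (nv (A.filter (fun w => w j0 = x)) j1)
          omega
      _ = 6 * nv A j0 + ∑ x ∈ A.image (fun w => w j0), nv (A.filter (fun w => w j0 = x)) j1 *
          (nv (A.filter (fun w => w j0 = x)) j1 - 1) := by
          rw [Finset.sum_add_distrib, Finset.sum_const, nv, smul_eq_mul, mul_comm]
      _ ≤ 6 * q + q * (q - 1) := by
          apply Nat.add_le_add
          · exact Nat.mul_le_mul_left _ (hq j0 (mem_insert_self _ _))
          · exact le_trans (sum_offDiag A j0 j1 (hfree j0 (mem_insert_self _ _) j1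
              (hmem j1 (mem_insert_self _ _)) hj01)) (hle j1 (hmem j1 (mem_insert_self _ _)))
  have h4 : (2 * J.card + 1) * (q * (q - 1)) = 2 * (J.card * (q * (q - 1))) + q * (q - 1) := by
    ring
  omega

/-- weighted sum of `n_j (n_j - 1)` along a list of coordinates. -/
def wsum (A : Finset (ι → F)) : List ι → ℕ
  | [] => 0
  | j :: l => nv A j * (nv A j - 1) + 2 * wsum A l

/-- splitting step for lists -/
lemma list_step (c : ℕ) (j0 : ι) (l : List ι) (hnd : (j0 :: l).Nodup) (A : Finset (ι → F))
    (hfree : ∀ a ∈ j0 :: l, ∀ b ∈ j0 :: l, a ≠ b → RectFree A a b) (d : ℕ)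
    (hc : ∀ x ∈ A.image (fun w => w j0),
      d * (A.filter (fun w => w j0 = x)).card ≤ c + wsum (A.filter (fun w => w j0 = x)) l) :
    d * A.card ≤ c * nv A j0 + wsum A l := by
  have hcard : A.card = ∑ x ∈ A.image (fun w => w j0), (A.filter (fun w => w j0 = x)).card :=
    Finset.card_eq_sum_card_image (fun w => w j0) A
  have hw : ∀ l' : List ι, (∀ b ∈ l', b ∈ l) →
      ∑ x ∈ A.image (fun w => w j0), wsum (A.filter (fun w => w j0 = x)) l' ≤ wsum A l' := by
    intro l'
    induction l' with
    | nil => intro _; simp [wsum]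
    | cons j l' ih =>
      intro hl'
      simp only [wsum]
      rw [Finset.sum_add_distrib, ← Finset.mul_sum]
      apply Nat.add_le_add
      · have hj : j ∈ l := hl' j (by simp)
        apply sum_offDiag
        apply hfree j0 (by simp) j (by simp [hj])
        rintro rfl
        exact (List.nodup_cons.1 hnd).1 hj
      · exact Nat.mul_le_mul_left _ (ih (fun b hb => hl' b (by simp [hb])))
  rw [hcard, Finset.mul_sum]
  calc ∑ x ∈ A.image (fun w => w j0), d * (A.filter (fun w => w j0 = x)).card
      ≤ ∑ x ∈ A.image (fun w => w j0), (c + wsum (A.filter (fun w => w j0 = x)) l) :=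
        Finset.sum_le_sum hc
    _ = c * nv A j0 + ∑ x ∈ A.image (fun w => w j0), wsum (A.filter (fun w => w j0 = x)) l := by
        rw [Finset.sum_add_distrib, Finset.sum_const, smul_eq_mul, nv, mul_comm]
    _ ≤ _ := Nat.add_le_add_left (hw l (fun b hb => hb)) _

lemma list_bound (l : List ι) : ∀ (A : Finset (ι → F)), l.Nodup →
    (∀ w ∈ A, ∀ w' ∈ A, (∀ j ∈ l, w j = w' j) → w = w') →
    (∀ a ∈ l, ∀ b ∈ l, a ≠ b → RectFree A a b) →
    2 ^ l.length * A.card ≤ syl l.length + wsum A l := by
  induction l with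
  | nil =>
    intro A _ hinj _
    have : A.card ≤ 1 := Finset.card_le_one.2 (fun w hw w' hw' => hinj w hw w' hw' (by simp))
    simpa [syl, wsum] using this
  | cons j0 l ih =>
    intro A hnd hinj hfree
    have h := list_step (syl l.length) j0 l hnd A hfree (2 ^ l.length) (by
      intro x _
      apply ih _ (List.nodup_cons.1 hnd).2
      · intro w hw w' hw' hww
        simp only [mem_filter] at hw hw'
        apply hinj w hw.1 w' hw'.1
        intro j hj
        rcases List.mem_cons.1 hj with rfl | hj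
        · rw [hw.2, hw'.2]
        · exact hww j hj
      · intro a ha b hb hab
        exact (hfree a (List.mem_cons_of_mem _ ha) b (List.mem_cons_of_mem _ hb) hab).mono
          (Finset.filter_subset _ _))
    have h1 := tangent (syl l.length) (nv A j0)
    simp only [List.length_cons, syl, wsum]
    rw [pow_succ]
    nlinarith

lemma wsum_le (l : List ι) (A : Finset (ι → F)) (q : ℕ) (hq : ∀ j ∈ l, nv A j ≤ q) :
    wsum A l + q * (q - 1) ≤ 2 ^ l.length * (q * (q - 1)) := by
  induction l with
  | nil => simp [wsum]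
  | cons j l ih =>
    have h1 := ih (fun j hj => hq j (List.mem_cons_of_mem _ hj))
    have h2 : nv A j * (nv A j - 1) ≤ q * (q - 1) := by
      have := hq j (by simp)
      exact Nat.mul_le_mul this (Nat.sub_le_sub_right this 1)
    simp only [List.length_cons, wsum]
    rw [pow_succ]
    nlinarith

/-- the bound used for the critical exponent -/
lemma list_bound' (j0 : ι) (l : List ι) (A : Finset (ι → F)) (hnd : (j0 :: l).Nodup)
    (q : ℕ) (hq : ∀ j ∈ j0 :: l, nv A j ≤ q)
    (hinj : ∀ w ∈ A, ∀ w' ∈ A, (∀ j ∈ j0 :: l, w j = w' j) → w = w')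
    (hfree : ∀ a ∈ j0 :: l, ∀ b ∈ j0 :: l, a ≠ b → RectFree A a b) :
    2 ^ l.length * A.card + q * (q - 1) ≤ syl l.length * q + 2 ^ l.length * (q * (q - 1)) := by
  have h := list_step (syl l.length) j0 l hnd A hfree (2 ^ l.length) (by
      intro x _
      apply list_bound l _ (List.nodup_cons.1 hnd).2
      · intro w hw w' hw' hww
        simp only [mem_filter] at hw hw'
        apply hinj w hw.1 w' hw'.1
        intro j hj
        rcases List.mem_cons.1 hj with rfl | hj
        · rw [hw.2, hw'.2]
        · exact hww j hj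
      · intro a ha b hb hab
        exact (hfree a (List.mem_cons_of_mem _ ha) b (List.mem_cons_of_mem _ hb) hab).mono
          (Finset.filter_subset _ _))
  have h1 := wsum_le l A q (fun j hj => hq j (List.mem_cons_of_mem _ hj))
  have h2 : syl l.length * nv A j0 ≤ syl l.length * q := Nat.mul_le_mul_left _ (hq j0 (by simp))
  omega

lemma syl_ge (m : ℕ) : 2 ^ m ≤ syl m := by
  induction m with
  | zero => simp [syl]
  | succ m ih =>
    simp only [syl]
    rw [pow_succ]
    have : 1 ≤ 2 ^ m := Nat.one_le_two_pow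
    nlinarith

lemma syl_mono_aux {m n : ℕ} (h : m ≤ n) : syl m + 2 ^ n ≤ syl n + 2 ^ m := by
  induction n, h using Nat.le_induction with
  | base => omega
  | succ n _ ih =>
    have h1 := syl_ge n
    have h2 : 1 ≤ 2 ^ n := Nat.one_le_two_pow
    simp only [syl]
    rw [pow_succ]
    nlinarith

end Pool.Agent.H54.Bry
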