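import Mathlib
import Pool.Agent.H54.K4

set_option autoImplicit false

namespace Pool.Agent.H54.Bry

open Matroid

variable {α F : Type*} [Field F]

lemma hasMK4_of_rect {M : Matroid α} {r : ℕ} (v : α → (Fin r → F)) (b : Fin r → α)
    (hbE : ∀ j, b j ∈ M.E) (hvb : ∀ j, v (b j) = Pi.single j 1)
    (hv : ∀ I : Set α, I ⊆ M.E → (M.Indep I ↔ LinearIndepOn F v I))
    (a c i : Fin r) (hac : a ≠ c) (hai : a < i) (hci : c < i)
    (f : Fin 4 → α) (hf : ∀ k, f k ∈ M.E) (hfi : ∀ k, v (f k) i ≠ 0)
    (hfj : ∀ k j, i < j → v (f k) j = 0)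
    (w : Fin 4 → (Fin r → F)) (hw : ∀ k, v (f k) = (v (f k) i) • w k)
    (h01 : w 0 a = w 1 a) (h23 : w 2 a = w 3 a) (h02 : w 0 c = w 2 c) (h13 : w 1 c = w 3 c)
    (ha : w 0 a ≠ w 2 a) (hc : w 0 c ≠ w 1 c) : HasMK4Minor M := by
  classical
  have hai' : a ≠ i := ne_of_lt hai
  have hci' : c ≠ i := ne_of_lt hci
  let x : Fin 6 → α := ![b a, f 0, f 1, f 2, f 3, b c]
  have hxE : ∀ k, x k ∈ M.E := by
    intro k
    fin_cases k <;> simp [x, hbE, hf]
  -- injectivity
  have hwf : ∀ k k' : Fin 4, f k = f k' → w k = w k' := by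
    intro k k' h
    have h3 : v (f k) i • w k = v (f k) i • w k' := by
      calc v (f k) i • w k = v (f k) := (hw k).symm
        _ = v (f k') := by rw [h]
        _ = v (f k') i • w k' := hw k'
        _ = v (f k) i • w k' := by rw [h]
    exact smul_right_injective _ (hfi k) h3
  have hbf : ∀ (j : Fin r) (k : Fin 4), j ≠ i → b j ≠ f k := by
    intro j k hj h
    apply hfi k
    rw [← h, hvb]
    simp [Ne.symm hj]
  have hbb : ∀ j j' : Fin r, b j = b j' → j = j' := by
    intro j j' h
    have h1 := hvb j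
    rw [h, hvb] at h1
    by_contra hne
    have h2 := congrFun h1 j
    simp [hne] at h2
  have n01 : f 0 ≠ f 1 := fun h => hc (congrFun (hwf _ _ h) c)
  have n02 : f 0 ≠ f 2 := fun h => ha (congrFun (hwf _ _ h) a)
  have n03 : f 0 ≠ f 3 := fun h => ha ((congrFun (hwf _ _ h) a).trans h23.symm)
  have n12 : f 1 ≠ f 2 := fun h => ha (h01.trans (congrFun (hwf _ _ h) a))
  have n13 : f 1 ≠ f 3 := fun h => ha (h01.trans ((congrFun (hwf _ _ h) a).trans h23.symm))
  have n23 : f 2 ≠ f 3 := fun h => hc (h02.trans ((congrFun (hwf _ _ h) c).trans h13.symm))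
  have hxinj : Function.Injective x := by
    intro k k' h
    fin_cases k <;> fin_cases k' <;> first
      | rfl
      | (exfalso; simp only [x] at h; first
          | exact hbf _ _ hai' h
          | exact hbf _ _ hai' h.symm
          | exact hbf _ _ hci' h
          | exact hbf _ _ hci' h.symm
          | exact hac (hbb _ _ h)
          | exact hac (hbb _ _ h.symm)
          | exact n01 h | exact n01 h.symm | exact n02 h | exact n02 h.symm
          | exact n03 h | exact n03 h.symm | exact n12 h | exact n12 h.symm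
          | exact n13 h | exact n13 h.symm | exact n23 h | exact n23 h.symm)
  -- the contracted set
  let J : Set (Fin r) := {j | j < i ∧ j ≠ a ∧ j ≠ c}
  let C : Set α := b '' J
  have hCE : C ⊆ M.E := by
    rintro _ ⟨j, _, rfl⟩
    exact hbE j
  have hxC : ∀ k, x k ∉ C := by
    intro k
    rintro ⟨j, ⟨hj1, hj2, hj3⟩, hj⟩
    fin_cases k
    · exact hj2 (hbb _ _ hj)
    · exact hbf _ _ (ne_of_lt hj1) hj
    · exact hbf _ _ (ne_of_lt hj1) hj
    · exact hbf _ _ (ne_of_lt hj1) hj
    · exact hbf _ _ (ne_of_lt hj1) hj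
    · exact hj3 (hbb _ _ hj)
  have hCli : LinearIndepOn F v C := by
    apply LinearIndepOn.image_of_comp
    have h1 : v ∘ b = fun j => Pi.single j (1 : F) := by
      ext j
      simp [hvb]
    rw [h1]
    exact (Pi.linearIndependent_single_one (Fin r) F).linearIndepOn J
  have hCind : M.Indep C := (hv C hCE).2 hCli
  -- the projection
  let p : (Fin r → F) →ₗ[F] (Fin 3 → F) := LinearMap.pi ![LinearMap.proj a, LinearMap.proj c,
    LinearMap.proj i]
  have hp : ∀ y, p y = ![y a, y c, y i] := by
    intro y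
    ext k
    fin_cases k <;> simp [p]
  have hspanC : ∀ y : Fin r → F, (∀ j, j ∉ J → y j = 0) → y ∈ Submodule.span F (v '' C) := by
    intro y hy
    have h1 : y = ∑ j, y j • (Pi.single j 1 : Fin r → F) := by
      ext k
      simp [Finset.sum_apply, Pi.single_apply]
    rw [h1]
    apply Submodule.sum_mem
    intro j _
    by_cases hj : j ∈ J
    · apply Submodule.smul_mem
      apply Submodule.subset_span
      exact ⟨b j, ⟨j, hj, rfl⟩, hvb j⟩
    · rw [hy j hj]
      simp
  have hspanC0 : ∀ y ∈ Submodule.span F (v '' C), p y = 0 := by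
    intro y hy
    have hle : Submodule.span F (v '' C) ≤ LinearMap.ker p := by
      rw [Submodule.span_le]
      rintro _ ⟨_, ⟨j, ⟨hj1, hj2, hj3⟩, rfl⟩, rfl⟩
      rw [SetLike.mem_coe, LinearMap.mem_ker, hp, hvb]
      simp [Ne.symm hj2, Ne.symm hj3, (ne_of_lt hj1).symm]
    exact hle hy
  have hxj : ∀ k j, i < j → v (x k) j = 0 := by
    intro k j hj
    fin_cases k
    · simp [x, hvb, (lt_trans hai hj).ne']
    · exact hfj 0 j hj
    · exact hfj 1 j hj
    · exact hfj 2 j hj
    · exact hfj 3 j hj
    · simp [x, hvb, (lt_trans hci hj).ne']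
  -- independence in the contraction
  have key : ∀ B : Set (Fin 6), LinearIndepOn F v (C ∪ x '' B) ↔
      LinearIndepOn F (p ∘ v ∘ x) B := by
    intro B
    have hdisj : Disjoint C (x '' B) := by
      rw [Set.disjoint_left]
      rintro _ h1 ⟨k, _, rfl⟩
      exact hxC k h1
    rw [← hCli.quotient_iff_union hdisj]
    have h1 : LinearIndepOn F ((Submodule.span F (v '' C)).mkQ ∘ v) (x '' B) ↔
        LinearIndepOn F ((Submodule.span F (v '' C)).mkQ ∘ v ∘ x) B := by
      constructor
      · intro h
        exact h.comp_of_image hxinj.injOn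
      · intro h
        exact LinearIndepOn.image_of_comp x _ h
    rw [h1]
    let pbar := (Submodule.span F (v '' C)).liftQ p (fun y hy => hspanC0 y hy)
    have h2 : p ∘ v ∘ x = pbar ∘ ((Submodule.span F (v '' C)).mkQ ∘ v ∘ x) := by
      ext k m
      rfl
    rw [h2]
    symm
    apply LinearMap.linearIndepOn_iff_of_injOn
    -- injectivity on the span
    have hsub : ∀ z ∈ Submodule.span F (((Submodule.span F (v '' C)).mkQ ∘ v ∘ x) '' B),
        ∃ y : Fin r → F, (∀ j, i < j → y j = 0) ∧ (Submodule.span F (v '' C)).mkQ y = z := by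
      intro z hz
      induction hz using Submodule.span_induction with
      | mem z hz =>
        obtain ⟨k, _, rfl⟩ := hz
        exact ⟨v (x k), hxj k, rfl⟩
      | zero => exact ⟨0, by simp, by simp⟩
      | add z1 z2 _ _ h1 h2 =>
        obtain ⟨y1, hy1, rfl⟩ := h1
        obtain ⟨y2, hy2, rfl⟩ := h2
        exact ⟨y1 + y2, fun j hj => by simp [hy1 j hj, hy2 j hj], by simp⟩
      | smul s z _ h1 =>
        obtain ⟨y1, hy1, rfl⟩ := h1
        exact ⟨s • y1, fun j hj => by simp [hy1 j hj], by simp⟩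
    intro z1 hz1 z2 hz2 h
    obtain ⟨y1, hy1, rfl⟩ := hsub z1 hz1
    obtain ⟨y2, hy2, rfl⟩ := hsub z2 hz2
    have h3 : p y1 = p y2 := h
    have h4 : p (y1 - y2) = 0 := by rw [map_sub, h3, sub_self]
    rw [hp] at h4
    have h5 : y1 - y2 ∈ Submodule.span F (v '' C) := by
      apply hspanC
      intro j hj
      by_cases hja : j = a
      · subst hja
        simpa using congrFun h4 0
      by_cases hjc : j = c
      · subst hjc
        simpa using congrFun h4 1
      by_cases hji : j = i
      · subst hji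
        simpa using congrFun h4 2
      have hlt : i < j := by
        rcases lt_trichotomy j i with h | h | h
        · exact absurd ⟨h, hja, hjc⟩ hj
        · exact absurd h hji
        · exact h
      simp [hy1 j hlt, hy2 j hlt]
    exact (Submodule.Quotient.eq _).2 h5
  have hpvx : p ∘ v ∘ x = quadT (w 0 a) (w 2 a) (w 0 c) (w 1 c) (v (f 0) i) (v (f 1) i)
      (v (f 2) i) (v (f 3) i) := by
    have hwi : ∀ k, w k i = 1 := by
      intro k
      have := congrFun (hw k) i
      simp only [Pi.smul_apply, smul_eq_mul] at this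
      exact (mul_right_eq_self₀.1 this.symm).resolve_right (hfi k)
    have hval : ∀ k j, v (f k) j = v (f k) i * w k j := by
      intro k j
      have := congrFun (hw k) j
      simpa using this
    ext k m
    fin_cases k
    · fin_cases m <;> simp [x, hp, hvb, quadT, hac.symm, hai'.symm]
    · fin_cases m <;> simp [x, hp, quadT] <;> rw [hval]
    · fin_cases m <;> simp [x, hp, quadT]
      · rw [hval, h01]
      · rw [hval]
    · fin_cases m <;> simp [x, hp, quadT]
      · rw [hval]
      · rw [hval, h02]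
    · fin_cases m <;> simp [x, hp, quadT]
      · rw [hval, h23]
      · rw [hval, h13]
    · fin_cases m <;> simp [x, hp, hvb, quadT, hac, hci'.symm]
  refine ⟨M ／ C ＼ (M.E \ Set.range x), contract_delete_isMinor M _ _, ?_⟩
  apply isMK4_of (x := x) hxinj ?_ ha hc (hfi 0) (hfi 1) (hfi 2) (hfi 3)
  · intro B
    rw [← hpvx, ← key, ← hv _ (Set.union_subset hCE (by rintro _ ⟨k, _, rfl⟩; exact hxE k)),
      delete_indep_iff, hCind.contract_indep_iff]
    have hd1 : Disjoint (x '' (B : Set (Fin 6))) C := by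
      rw [Set.disjoint_left]
      rintro _ ⟨k, _, rfl⟩
      exact hxC k
    have hd2 : Disjoint (x '' (B : Set (Fin 6))) (M.E \ Set.range x) := by
      rw [Set.disjoint_left]
      rintro _ ⟨k, _, rfl⟩ h
      exact h.2 ⟨k, rfl⟩
    rw [Set.union_comm]
    tauto
  · rw [delete_ground, contract_ground]
    ext y
    constructor
    · rintro ⟨⟨h1, h2⟩, h3⟩
      by_contra h4
      exact h3 ⟨h1, h4⟩
    · rintro ⟨k, rfl⟩
      exact ⟨⟨hxE k, hxC k⟩, fun h => h.2 ⟨k, rfl⟩⟩

end Pool.Agent.H54.Bry
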