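import Mathlib
import Pool.Agent.H54.RectMinor
import Pool.Agent.H54.Crit
import Pool.Agent.H54.StdRep
import Pool.Agent.H54.RectFree

set_option autoImplicit false

namespace Pool.Agent.H54.Bry

open Matroid Finset

lemma core {α F : Type*} [Fintype α] [Field F] [Fintype F] [DecidableEq F] (M : Matroid α)
    [M.Loopless] (hrep : RepresentableOver F M) (hK4 : ¬ HasMK4Minor M) (k : ℕ)
    (hbound : ∀ (J : Finset (Fin (M.eRk M.E).toNat)) (A : Finset (Fin (M.eRk M.E).toNat → F)),
      J.card < (M.eRk M.E).toNat →
      (∀ w ∈ A, ∀ w' ∈ A, (∀ j ∈ J, w j = w' j) → w = w') →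
      (∀ a ∈ J, ∀ b ∈ J, a ≠ b → RectFree A a b) → A.card < Fintype.card F ^ k) :
    0 < charPoly M ((Fintype.card F : ℤ) ^ k) := by
  classical
  obtain ⟨n, v0, hv0⟩ := hrep
  obtain ⟨r, v, b, hbE, hvb, hv, hspan, hr⟩ := exists_std (F := F) hv0 (span_basis_eq hv0)
  subst hr
  -- the chain colouring
  have hcol : ∀ n : ℕ, n ≤ (M.eRk M.E).toNat →
      ∃ φ : (Fin (M.eRk M.E).toNat → F) →ₗ[F] (Fin k → F), ∀ e ∈ M.E,
        (∀ j : Fin (M.eRk M.E).toNat, n ≤ j.val → v e j = 0) → φ (v e) ≠ 0 := by
    intro n
    induction n with
    | zero =>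
      intro _
      refine ⟨0, fun e he h => ?_⟩
      exfalso
      have h1 : M.Indep {e} := (M.isNonloop_of_loopless he).indep
      have h2 : LinearIndepOn F v {e} := (hv {e} (by simpa using he)).1 h1
      exact h2.ne_zero (Set.mem_singleton e) (funext fun j => h j (Nat.zero_le _))
    | succ n ih =>
      intro hn
      obtain ⟨φ, hφ⟩ := ih (by omega)
      let i : Fin (M.eRk M.E).toNat := ⟨n, by omega⟩
      let A : Finset (Fin (M.eRk M.E).toNat → F) :=
        (Finset.univ.filter (fun e : α => e ∈ M.E ∧ v e i ≠ 0 ∧ ∀ j, i < j → v e j = 0)).image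
          (fun e => (v e i)⁻¹ • v e)
      have hA : ∀ w ∈ A, ∃ e ∈ M.E, v e i ≠ 0 ∧ (∀ j, i < j → v e j = 0) ∧
          v e = (v e i) • w := by
        intro w hw
        simp only [A, mem_image, mem_filter, mem_univ, true_and] at hw
        obtain ⟨e, ⟨h1, h2, h3⟩, rfl⟩ := hw
        refine ⟨e, h1, h2, h3, ?_⟩
        rw [smul_smul, mul_inv_cancel₀ h2, one_smul]
      have hAval : ∀ w ∈ A, w i = 1 ∧ ∀ j, i < j → w j = 0 := by
        intro w hw
        obtain ⟨e, _, h2, h3, h4⟩ := hA w hw
        have hval : ∀ j, v e j = v e i * w j := fun j => by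
          have := congrFun h4 j
          simpa using this
        constructor
        · have := hval i
          exact (mul_right_eq_self₀.1 this.symm).resolve_right h2
        · intro j hj
          have h5 := hval j
          rw [h3 j hj] at h5
          exact (mul_eq_zero.1 h5.symm).resolve_left h2
      have hcard : A.card < Fintype.card F ^ k := by
        apply hbound (Finset.univ.filter (fun j => j < i)) A
        · have h1 : (Finset.univ.filter (fun j => j < i)) = Finset.Iio i := by
            ext j
            simp
          rw [h1, Fin.card_Iio]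
          exact i.isLt
        · intro w hw w' hw' hww
          ext j
          rcases lt_trichotomy j i with h | h | h
          · exact hww j (by simpa using h)
          · rw [h, (hAval w hw).1, (hAval w' hw').1]
          · rw [(hAval w hw).2 j h, (hAval w' hw').2 j h]
        · intro a ha c hc hac w1 hw1 w2 hw2 w3 hw3 w4 hw4 e1 e2 e3 e4 hne
          by_contra hcon
          apply hK4
          obtain ⟨f1, g1, g2, g3, g4⟩ := hA w1 hw1
          obtain ⟨f2, k1, k2, k3, k4⟩ := hA w2 hw2
          obtain ⟨f3, l1, l2, l3, l4⟩ := hA w3 hw3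
          obtain ⟨f4, m1, m2, m3, m4⟩ := hA w4 hw4
          apply hasMK4_of_rect v b hbE hvb hv a c i hac (by simpa using ha) (by simpa using hc)
            ![f1, f2, f3, f4] ?_ ?_ ?_ ![w1, w2, w3, w4] ?_ e1 e2 e3 e4 hne hcon
          · intro k
            fin_cases k <;> assumption
          · intro k
            fin_cases k <;> assumption
          · intro k j hj
            fin_cases k
            · exact g3 j hj
            · exact k3 j hj
            · exact l3 j hj
            · exact m3 j hj
          · intro k
            fin_cases k <;> assumption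
      obtain ⟨y, hy⟩ : ∃ y : Fin k → F, y ∉ A.image (fun w => - φ w) := by
        by_contra hcon
        push Not at hcon
        have h1 : (Finset.univ : Finset (Fin k → F)) ⊆ A.image (fun w => - φ w) :=
          fun y _ => hcon y
        have h2 := Finset.card_le_card h1
        have h3 : (A.image (fun w => - φ w)).card ≤ A.card := Finset.card_image_le
        rw [Finset.card_univ, Fintype.card_fun, Fintype.card_fin] at h2
        omega
      refine ⟨φ + (LinearMap.proj i : (Fin (M.eRk M.E).toNat → F) →ₗ[F] F).smulRight y, ?_⟩
      intro e he hej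
      by_cases hei : v e i = 0
      · have h1 : φ (v e) ≠ 0 := by
          apply hφ e he
          intro j hj
          rcases Nat.lt_or_ge n j.val with h | h
          · exact hej j h
          · have : j = i := Fin.ext (le_antisymm h hj)
            rw [this]
            exact hei
        simpa [hei] using h1
      · intro hcon
        apply hy
        rw [mem_image]
        refine ⟨(v e i)⁻¹ • v e, ?_, ?_⟩
        · simp only [A, mem_image, mem_filter, mem_univ, true_and]
          exact ⟨e, ⟨he, hei, fun j hj => hej j hj⟩, rfl⟩
        · have h1 : φ (v e) + v e i • y = 0 := by simpa using hcon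
          have h2 : v e i • y = - φ (v e) := by
            rw [eq_neg_iff_add_eq_zero, add_comm]
            exact h1
          rw [map_smul, ← smul_neg, ← h2, smul_smul, inv_mul_cancel₀ hei, one_smul]
  obtain ⟨φ, hφ⟩ := hcol _ le_rfl
  apply charPoly_pos M v hv hspan k φ
  intro e he
  exact hφ e he (fun j hj => absurd j.isLt (by omega))

end Pool.Agent.H54.Bry
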