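import Mathlib

set_option autoImplicit false

open Finset Polynomial

namespace Pool.Agent.H54.Sidon

variable {p : ℕ} [hp : Fact p.Prime]

/-- differences off the diagonal biject with the complement of `T` -/
theorem sum_diff (S T : Finset (ZMod p × ZMod p)) (hS : S.card = p)
    (hSid : ∀ a ∈ S, ∀ b ∈ S, ∀ c ∈ S, ∀ d ∈ S,
      a + b = c + d → (a = c ∧ b = d) ∨ (a = d ∧ b = c))
    (hT : ∀ x, x ∈ T ↔ x = 0 ∨ ∀ a ∈ S, ∀ b ∈ S, a - b ≠ x)
    {M : Type*} [AddCommGroup M] (hM : ∀ m : M, p • m = 0) (f : ZMod p × ZMod p → M) :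
    ∑ a ∈ S, ∑ b ∈ S, f (a - b) = ∑ x, f x - ∑ t ∈ T, f t := by
  classical
  have h1 : ∑ a ∈ S, ∑ b ∈ S, f (a - b) = ∑ x ∈ S ×ˢ S, f (x.1 - x.2) := by
    rw [Finset.sum_product]
  have h2 : ∑ x ∈ S ×ˢ S, f (x.1 - x.2) =
      ∑ x ∈ S.diag, f (x.1 - x.2) + ∑ x ∈ S.offDiag, f (x.1 - x.2) := by
    rw [← Finset.diag_union_offDiag, Finset.sum_union (Finset.disjoint_diag_offDiag S)]
  have h3 : ∑ x ∈ S.diag, f (x.1 - x.2) = 0 := by
    rw [Finset.sum_diag]
    simp [hS, hM]
  have h4 : ∑ x ∈ S.offDiag, f (x.1 - x.2) = ∑ x ∈ univ \ T, f x := by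
    apply Finset.sum_bij (fun x _ => x.1 - x.2)
    · intro x hx
      rw [mem_offDiag] at hx
      simp only [mem_sdiff, mem_univ, true_and]
      rw [hT]
      push Not
      exact ⟨fun h => hx.2.2 (sub_eq_zero.1 h), x.1, hx.1, x.2, hx.2.1, rfl⟩
    · rintro ⟨a, b⟩ hx ⟨c, d⟩ hy h
      rw [mem_offDiag] at hx hy
      simp only at h hx hy
      have h' : a + d = c + b := by
        have := sub_eq_sub_iff_add_eq_add.1 h
        exact this
      rcases hSid a hx.1 d hy.2.1 c hy.1 b hx.2.1 h' with ⟨h1, h2⟩ | ⟨h1, h2⟩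
      · rw [h1, h2]
      · exact absurd h1 hx.2.2
    · intro x hx
      simp only [mem_sdiff, mem_univ, true_and] at hx
      rw [hT] at hx
      push Not at hx
      obtain ⟨hx0, a, ha, b, hb, hab⟩ := hx
      refine ⟨(a, b), ?_, hab⟩
      rw [mem_offDiag]
      refine ⟨ha, hb, ?_⟩
      rintro h
      apply hx0
      rw [← hab]
      exact sub_eq_zero.2 h
    · intro x _
      rfl
  rw [h1, h2, h3, h4, zero_add, Finset.sum_sdiff_eq_sub (Finset.subset_univ T)]

theorem card_T (S T : Finset (ZMod p × ZMod p)) (hS : S.card = p)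
    (hSid : ∀ a ∈ S, ∀ b ∈ S, ∀ c ∈ S, ∀ d ∈ S,
      a + b = c + d → (a = c ∧ b = d) ∨ (a = d ∧ b = c))
    (hT : ∀ x, x ∈ T ↔ x = 0 ∨ ∀ a ∈ S, ∀ b ∈ S, a - b ≠ x) : T.card = p := by
  classical
  have h4 : S.offDiag.card = (univ \ T).card := by
    apply Finset.card_bij (fun x _ => x.1 - x.2)
    · intro x hx
      rw [mem_offDiag] at hx
      simp only [mem_sdiff, mem_univ, true_and]
      rw [hT]
      push Not
      exact ⟨fun h => hx.2.2 (sub_eq_zero.1 h), x.1, hx.1, x.2, hx.2.1, rfl⟩
    · rintro ⟨a, b⟩ hx ⟨c, d⟩ hy h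
      rw [mem_offDiag] at hx hy
      simp only at h hx hy
      have h' : a + d = c + b := by
        have := sub_eq_sub_iff_add_eq_add.1 h
        exact this
      rcases hSid a hx.1 d hy.2.1 c hy.1 b hx.2.1 h' with ⟨h1, h2⟩ | ⟨h1, h2⟩
      · rw [h1, h2]
      · exact absurd h1 hx.2.2
    · intro x hx
      simp only [mem_sdiff, mem_univ, true_and] at hx
      rw [hT] at hx
      push Not at hx
      obtain ⟨hx0, a, ha, b, hb, hab⟩ := hx
      refine ⟨(a, b), ?_, hab⟩
      rw [mem_offDiag]
      refine ⟨ha, hb, ?_⟩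
      rintro h
      apply hx0
      rw [← hab]
      exact sub_eq_zero.2 h
  rw [Finset.offDiag_card, hS, Finset.card_sdiff_of_subset (Finset.subset_univ T)] at h4
  have h5 : (univ : Finset (ZMod p × ZMod p)).card = p * p := by
    rw [Finset.card_univ, Fintype.card_prod, ZMod.card]
  rw [h5] at h4
  have h6 : T.card ≤ p * p := by rw [← h5]; exact Finset.card_le_univ T
  have h7 : p ≤ p * p := Nat.le_mul_self p
  omega

/-- the linear functional attached to `(u, v)` -/
def ell (u v : ZMod p) (x : ZMod p × ZMod p) : ZMod p := u * x.1 + v * x.2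

theorem ell_sub (u v : ZMod p) (x y : ZMod p × ZMod p) :
    ell u v (x - y) = ell u v x - ell u v y := by
  simp [ell]; ring

theorem sum_univ_ell (u v : ZMod p) {k : ℕ} (hk : k ≠ 0) :
    ∑ x : ZMod p × ZMod p, ell u v x ^ k = 0 := by
  rw [Fintype.sum_prod_type]
  by_cases hv : v = 0
  · by_cases hu : u = 0
    · subst hv hu
      simp [ell, hk]
    · subst hv
      simp [ell]
  · have : ∀ x : ZMod p, ∑ y : ZMod p, ell u v (x, y) ^ k = ∑ z : ZMod p, z ^ k := by
      intro x
      have hb : Function.Bijective (fun y : ZMod p => ell u v (x, y)) := by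
        rw [Fintype.bijective_iff_injective_and_card]
        refine ⟨?_, rfl⟩
        intro y y' h
        simp only [ell] at h
        exact mul_left_cancel₀ hv (add_left_cancel h)
      exact hb.sum_comp (fun z => z ^ k)
    simp only [this]
    simp

theorem binom_identity (S T : Finset (ZMod p × ZMod p)) (hS : S.card = p)
    (hSid : ∀ a ∈ S, ∀ b ∈ S, ∀ c ∈ S, ∀ d ∈ S,
      a + b = c + d → (a = c ∧ b = d) ∨ (a = d ∧ b = c))
    (hT : ∀ x, x ∈ T ↔ x = 0 ∨ ∀ a ∈ S, ∀ b ∈ S, a - b ≠ x)
    (u v : ZMod p) {k : ℕ} (hk : k ≠ 0) :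
    ∑ j ∈ range (k + 1), (k.choose j : ZMod p) * (-1) ^ (k - j) *
      ((∑ s ∈ S, ell u v s ^ j) * (∑ s ∈ S, ell u v s ^ (k - j))) = -∑ t ∈ T, ell u v t ^ k := by
  have h := sum_diff S T hS hSid hT (M := ZMod p) (fun m => by simp) (fun x => ell u v x ^ k)
  rw [sum_univ_ell u v hk, zero_sub] at h
  rw [← h]
  have : ∀ a ∈ S, ∀ b ∈ S, ell u v (a - b) ^ k =
      ∑ j ∈ range (k + 1), (k.choose j : ZMod p) * (-1) ^ (k - j) *
        (ell u v a ^ j * ell u v b ^ (k - j)) := by
    intro a _ b _
    rw [ell_sub, sub_eq_add_neg, add_pow]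
    apply Finset.sum_congr rfl
    intro j _
    rw [neg_pow (ell u v b)]
    ring
  rw [Finset.sum_congr rfl (fun a ha => Finset.sum_congr rfl (fun b hb => this a ha b hb))]
  simp_rw [Finset.sum_comm (s := S) (t := range (k+1))]
  apply Finset.sum_congr rfl
  intro j _
  simp_rw [← Finset.mul_sum, ← Finset.sum_mul]

/-- If the power sums of `S` vanish in degrees `1 ≤ j < m`, then those of `T` vanish in degrees
`1 ≤ k < 2m`. -/
theorem Q_zero (S T : Finset (ZMod p × ZMod p)) (hS : S.card = p)
    (hSid : ∀ a ∈ S, ∀ b ∈ S, ∀ c ∈ S, ∀ d ∈ S,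
      a + b = c + d → (a = c ∧ b = d) ∨ (a = d ∧ b = c))
    (hT : ∀ x, x ∈ T ↔ x = 0 ∨ ∀ a ∈ S, ∀ b ∈ S, a - b ≠ x)
    (u v : ZMod p) (m : ℕ) (hP : ∀ j, 1 ≤ j → j < m → ∑ s ∈ S, ell u v s ^ j = 0)
    (k : ℕ) (hk : 1 ≤ k) (hk2 : k < 2 * m) : ∑ t ∈ T, ell u v t ^ k = 0 := by
  have h := binom_identity S T hS hSid hT u v (k := k) (by omega)
  have hP' : ∀ j, j < m → ∑ s ∈ S, ell u v s ^ j = 0 := by
    intro j hj
    rcases Nat.eq_zero_or_pos j with rfl | hj0
    · simp [hS]
    · exact hP j hj0 hj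
  have h0 : ∑ j ∈ range (k + 1), (k.choose j : ZMod p) * (-1) ^ (k - j) *
      ((∑ s ∈ S, ell u v s ^ j) * (∑ s ∈ S, ell u v s ^ (k - j))) = 0 := by
    apply Finset.sum_eq_zero
    intro j hj
    rw [mem_range] at hj
    by_cases hjm : j < m
    · rw [hP' j hjm]; simp
    · rw [hP' (k - j) (by omega)]; simp
  rw [h0] at h
  exact (neg_eq_zero.1 h.symm)

/-- power sums over the image of an injective functional -/
theorem Q_zero_of_inj (T : Finset (ZMod p × ZMod p)) (hT : T.card = p) (u v : ZMod p)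
    (hinj : Set.InjOn (ell u v) (T : Set (ZMod p × ZMod p))) (k : ℕ) (hk : k < p - 1) :
    ∑ t ∈ T, ell u v t ^ k = 0 := by
  classical
  have h1 : T.image (ell u v) = univ := by
    apply Finset.eq_univ_of_card
    rw [Finset.card_image_of_injOn hinj, hT, ZMod.card]
  have h2 : ∑ t ∈ T, ell u v t ^ k = ∑ z ∈ T.image (ell u v), z ^ k := by
    rw [Finset.sum_image hinj]
  rw [h2, h1]
  apply FiniteField.sum_pow_lt_card_sub_one
  rwa [ZMod.card]

theorem choose_ne_zero' {k j : ℕ} (hj : j ≤ k) (hk : k < p) : (k.choose j : ZMod p) ≠ 0 := by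
  rw [Ne, ZMod.natCast_eq_zero_iff]
  intro hd
  have h1 : p ∣ k.factorial := by
    rw [← Nat.choose_mul_factorial_mul_factorial hj]
    exact (hd.mul_right _).mul_right _
  have := (Nat.Prime.dvd_factorial hp.out).1 h1
  omega

/-- If the even power sums of `T` vanish then so do those of `S`. -/
theorem P_zero_of_Q_zero (S T : Finset (ZMod p × ZMod p)) (hS : S.card = p)
    (hSid : ∀ a ∈ S, ∀ b ∈ S, ∀ c ∈ S, ∀ d ∈ S,
      a + b = c + d → (a = c ∧ b = d) ∨ (a = d ∧ b = c))
    (hT : ∀ x, x ∈ T ↔ x = 0 ∨ ∀ a ∈ S, ∀ b ∈ S, a - b ≠ x)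
    (u v : ZMod p) (hQ : ∀ k, 1 ≤ k → k < p - 1 → ∑ t ∈ T, ell u v t ^ k = 0)
    (j : ℕ) (hj : 1 ≤ j) (hj2 : 2 * j + 1 < p) : ∑ s ∈ S, ell u v s ^ j = 0 := by
  induction j using Nat.strong_induction_on with
  | _ j ih =>
    have h := binom_identity S T hS hSid hT u v (k := 2 * j) (by omega)
    rw [hQ (2 * j) (by omega) (by omega), neg_zero] at h
    have hP' : ∀ i, i < j → ∑ s ∈ S, ell u v s ^ i = 0 := by
      intro i hi
      rcases Nat.eq_zero_or_pos i with rfl | hi0
      · simp [hS]
      · exact ih i hi hi0 (by omega)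
    rw [Finset.sum_eq_single j] at h
    · have h2 : 2 * j - j = j := by omega
      rw [h2] at h
      have h3 : ((2 * j).choose j : ZMod p) ≠ 0 := choose_ne_zero' (by omega) (by omega)
      have h4 : ((-1 : ZMod p)) ^ j ≠ 0 := pow_ne_zero _ (neg_ne_zero.2 one_ne_zero)
      have h5 := (mul_eq_zero.1 h).resolve_left (mul_ne_zero h3 h4)
      exact mul_self_eq_zero.1 h5
    · intro i hi hij
      rw [mem_range] at hi
      rcases lt_or_gt_of_ne hij with hlt | hgt
      · rw [hP' i hlt]; simp
      · rw [hP' (2 * j - i) (by omega)]; simp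
    · intro hj'
      exact absurd (mem_range.2 (by omega)) hj'

/-- Newton: vanishing power sums give vanishing elementary symmetric functions. -/
theorem esymm_zero (T : Finset (ZMod p × ZMod p)) (f : ZMod p × ZMod p → ZMod p) (n : ℕ)
    (hQ : ∀ k, 1 ≤ k → k < n → ∑ t ∈ T, f t ^ k = 0) (k : ℕ) (hk : 1 ≤ k) (hkn : k < n)
    (hkp : k < p) : (T.val.map f).esymm k = 0 := by
  classical
  have h := congrArg (MvPolynomial.aeval (fun t : T => f t))
    (MvPolynomial.mul_esymm_eq_sum T (ZMod p) k)
  rw [map_mul, map_natCast, map_mul, map_sum] at h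
  have hr : ∑ x ∈ (antidiagonal k).filter (fun a => a.1 < k),
      (MvPolynomial.aeval (fun t : T => f t))
        ((-1) ^ x.1 * MvPolynomial.esymm T (ZMod p) x.1 * MvPolynomial.psum T (ZMod p) x.2) = 0 := by
    apply Finset.sum_eq_zero
    intro x hx
    rw [mem_filter, HasAntidiagonal.mem_antidiagonal] at hx
    rw [map_mul]
    have : (MvPolynomial.aeval (fun t : T => f t)) (MvPolynomial.psum T (ZMod p) x.2) = 0 := by
      rw [MvPolynomial.psum, map_sum]
      simp only [map_pow, MvPolynomial.aeval_X]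
      rw [Finset.sum_coe_sort T (fun t => f t ^ x.2)]
      exact hQ x.2 (by omega) (by omega)
    rw [this, mul_zero]
  rw [hr, mul_zero, MvPolynomial.aeval_esymm_eq_multiset_esymm] at h
  have h2 : ((univ : Finset T).val.map (fun t : T => f t)) = T.val.map f := by
    rw [Finset.univ_eq_attach, Finset.attach_val]
    exact Multiset.attach_map_val' T.val f
  rw [h2] at h
  refine (mul_eq_zero.1 h).resolve_left (fun hd => ?_)
  rw [ZMod.natCast_eq_zero_iff] at hd
  have := Nat.le_of_dvd (by omega) hd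
  omega

/-- The lacunary polynomial dichotomy. -/
theorem dichotomy (hp2 : p ≠ 2) (T : Finset (ZMod p × ZMod p)) (hT : T.card = p)
    (f : ZMod p × ZMod p → ZMod p) (h0 : ∃ t ∈ T, f t = 0) (m : ℕ) (hm : p ≤ 4 * m)
    (hQ : ∀ k, 1 ≤ k → k < 2 * m → ∑ t ∈ T, f t ^ k = 0) :
    Set.InjOn f (T : Set (ZMod p × ZMod p)) ∨ ∀ t ∈ T, f t = 0 := by
  classical
  have hpp := hp.out.two_le
  have hodd : p % 2 = 1 := (hp.out.eq_two_or_odd).resolve_left hp2
  set s : Multiset (ZMod p) := T.val.map f with hs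
  have hcard : Multiset.card s = p := by rw [hs, Multiset.card_map]; exact hT
  set R : (ZMod p)[X] := (s.map (fun t => X - C t)).prod with hR
  have hRmonic : R.Monic := by
    rw [hR]; exact monic_multiset_prod_of_monic _ _ (fun a _ => monic_X_sub_C a)
  have hRdeg : R.natDegree = p := by
    rw [hR, natDegree_multiset_prod_X_sub_C_eq_card, hcard]
  have hRroots : R.roots = s := by rw [hR]; exact roots_multiset_prod_X_sub_C s
  have hRcoeff : ∀ k, p - 2 * m < k → k < p → R.coeff k = 0 := by
    intro k hk1 hk2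
    rw [hR, Multiset.prod_X_sub_C_coeff s (by omega), hcard,
      esymm_zero T f (2 * m) hQ (p - k) (by omega) (by omega) (by omega), mul_zero]
  set G : (ZMod p)[X] := R - X ^ p with hG
  have hGdeg : G.natDegree ≤ (p - 1) / 2 := by
    rw [natDegree_le_iff_coeff_eq_zero]
    intro k hk
    rw [hG, coeff_sub, coeff_X_pow]
    rcases lt_trichotomy k p with hlt | heq | hgt
    · rw [if_neg (by omega), hRcoeff k (by omega) hlt, sub_zero]
    · rw [if_pos heq, heq]
      have : R.coeff p = 1 := by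
        have h := hRmonic.coeff_natDegree
        rwa [hRdeg] at h
      rw [this, sub_self]
    · rw [if_neg (by omega), coeff_eq_zero_of_natDegree_lt (by omega), sub_zero]
  have hRG : derivative R = derivative G := by
    have : R = G + X ^ p := by rw [hG]; ring
    rw [this, derivative_add, derivative_X_pow]
    simp
  have heval : ∀ z, (G + X).eval z = R.eval z := by
    intro z
    rw [hG]
    simp [ZMod.pow_card]
  have hF : (G + X) * derivative G = 0 := by
    by_contra hne
    have hne1 : G + X ≠ 0 := left_ne_zero_of_mul hne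
    have hne2 : derivative G ≠ 0 := right_ne_zero_of_mul hne
    have hdvd : R ∣ (G + X) * derivative G := by
      rw [hR, Multiset.prod_X_sub_C_dvd_iff_le_roots hne, Multiset.le_iff_count]
      intro z
      rw [count_roots, rootMultiplicity_mul hne]
      have hcs : Multiset.count z s = R.rootMultiplicity z := by
        rw [← hRroots, count_roots]
      rw [hcs]
      by_cases hz : R.IsRoot z
      · have h1 : 0 < (G + X).rootMultiplicity z := by
          rw [rootMultiplicity_pos hne1, IsRoot, heval]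
          exact hz
        have h2 := rootMultiplicity_sub_one_le_derivative_rootMultiplicity_of_ne_zero R z
          (by rw [hRG]; exact hne2)
        rw [hRG] at h2
        omega
      · rw [rootMultiplicity_eq_zero hz]; exact Nat.zero_le _
    have h1 := natDegree_le_of_dvd hdvd hne
    rw [hRdeg, natDegree_mul hne1 hne2] at h1
    have h2 : (G + X).natDegree ≤ (p - 1) / 2 := by
      apply (natDegree_add_le _ _).trans
      rw [natDegree_X]
      have : 1 ≤ (p - 1) / 2 := by omega
      exact max_le hGdeg this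
    have h3 : (derivative G).natDegree ≤ (p - 1) / 2 - 1 := (natDegree_derivative_le G).trans
      (Nat.sub_le_sub_right hGdeg 1)
    omega
  rcases mul_eq_zero.1 hF with h | h
  · left
    have hR2 : R = X ^ p - X := by
      have : R = (G + X) + (X ^ p - X) := by rw [hG]; ring
      rw [this, h, zero_add]
    have h5 : s = (univ : Finset (ZMod p)).val := by
      rw [← hRroots, hR2]
      have := FiniteField.roots_X_pow_card_sub_X (ZMod p)
      rwa [ZMod.card] at this
    have hnd : s.Nodup := by rw [h5]; exact Finset.nodup _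
    intro x hx y hy hxy
    exact Multiset.inj_on_of_nodup_map hnd x hx y hy hxy
  · right
    have hGc : G = C (G.coeff 0) := by
      ext k
      rw [coeff_C]
      split_ifs with hk
      · rw [hk]
      · by_cases hkp : k < p
        · have h6 := congrArg (fun q : (ZMod p)[X] => q.coeff (k - 1)) h
          simp only [coeff_derivative, coeff_zero] at h6
          rw [Nat.sub_add_cancel (by omega)] at h6
          refine (mul_eq_zero.1 h6).resolve_right (fun hd => ?_)
          have h7 : ((k - 1 : ℕ) : ZMod p) + 1 = ((k : ℕ) : ZMod p) := by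
            have : k = (k - 1) + 1 := by omega
            conv_rhs => rw [this]
            push_cast
            ring
          rw [h7, ZMod.natCast_eq_zero_iff] at hd
          have := Nat.le_of_dvd (by omega) hd
          omega
        · exact coeff_eq_zero_of_natDegree_lt (by omega)
    have hroot : ∀ t ∈ T, R.eval (f t) = 0 := by
      intro t ht
      have : f t ∈ R.roots := by rw [hRroots, hs]; exact Multiset.mem_map_of_mem f ht
      exact (mem_roots'.1 this).2
    have hR3 : ∀ z, R.eval z = z + G.coeff 0 := by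
      intro z
      have : R = G + X ^ p := by rw [hG]; ring
      rw [this, hGc]
      simp [ZMod.pow_card, add_comm]
    obtain ⟨t0, ht0, hft0⟩ := h0
    have hc : G.coeff 0 = 0 := by
      have := hroot t0 ht0
      rw [hR3, hft0, zero_add] at this
      exact this
    intro t ht
    have := hroot t ht
    rwa [hR3, hc, add_zero] at this

end Pool.Agent.H54.Sidon
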